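import Mathlib
import Pool.Agent.Lib.P325qz.Cube

/-!
P325qs.Graph (MP_325f1f_lc, helper45): the subdivided hypercube.  Every edge of the hypercube is
replaced by a path of `2 q + 1` edges (the middle edge is doubled).
-/

namespace P325qs

open Finset Real P325qz
open Pool.Agent.Lib.P325q (density mass energy IsSlow)

/-- The vertices: a vertex of the cube, or the vertex at distance `p + 1` from it on its path in
direction `i`. -/
abbrev SV (m q : ℕ) : Type := (Fin m → Bool) × Option (Fin m × Fin q)
/-- The edges. -/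
abbrev SE (m q : ℕ) : Type := (Fin m → Bool) × (Fin m × Fin (q + 1))

/-- the vertex at distance `p` from the vertex of the cube -/
def pos {m q : ℕ} (i : Fin m) (p : Fin (q + 1)) : Option (Fin m × Fin q) :=
  if h : 0 < (p : ℕ) then some (i, ⟨p - 1, by omega⟩) else none

def ss {m q : ℕ} (e : SE m q) : SV m q := (e.1, pos e.2.1 e.2.2)
def tt {m q : ℕ} (e : SE m q) : SV m q :=
  if h : (e.2.2 : ℕ) < q then (e.1, some (e.2.1, ⟨e.2.2, h⟩))
  else (P325qz.flip e.1 e.2.1, pos e.2.1 e.2.2)
noncomputable def ww {m q : ℕ} (_ : SE m q) : ℝ := 1 / (m * 2 ^ m * (q + 1))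

theorem ww_nonneg {m q : ℕ} (e : SE m q) : 0 ≤ ww e := by unfold ww; positivity

theorem ww_sum {m q : ℕ} (hm : 0 < m) : ∑ e : SE m q, ww e = 1 := by
  have hm' : (m : ℝ) ≠ 0 := by positivity
  have hq' : (q : ℝ) + 1 ≠ 0 := by positivity
  unfold ww
  simp
  field_simp

theorem density_pair {V ι : Type} [Fintype V] [DecidableEq V] [Fintype ι] (s t : ι → V)
    (w : ι → ℝ) (G : V → ℝ) :
    ∑ x, density s t w x * G x = (∑ e, w e * (G (s e) + G (t e))) / 2 := by
  unfold density
  have h1 : ∀ x, (∑ e, w e * ((if s e = x then (1 : ℝ) else 0) + (if t e = x then 1 else 0))) / 2 *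
      G x = (∑ e, w e * ((if s e = x then G x else 0) + (if t e = x then G x else 0))) / 2 := by
    intro x
    rw [div_mul_eq_mul_div, Finset.sum_mul]
    congr 1
    refine Finset.sum_congr rfl fun e _ => ?_
    split_ifs <;> ring
  rw [Finset.sum_congr rfl fun x _ => h1 x, ← Finset.sum_div, Finset.sum_comm]
  congr 1
  refine Finset.sum_congr rfl fun e _ => ?_
  rw [← Finset.mul_sum, Finset.sum_add_distrib]
  simp

theorem sum_SE {m q : ℕ} (f : SE m q → ℝ) :
    ∑ e, f e = ∑ x : Fin m → Bool, ∑ i : Fin m, ∑ p : Fin (q + 1), f (x, (i, p)) := by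
  rw [Fintype.sum_prod_type]
  exact Finset.sum_congr rfl fun x _ => Fintype.sum_prod_type _

/-- functions of the nearest vertex of the cube -/
theorem sum_fst {m q : ℕ} (hm : 0 < m) (g : (Fin m → Bool) → ℝ) :
    ∑ v : SV m q, density ss tt ww v * g v.1 = (∑ x, g x) / 2 ^ m := by
  have hm' : (m : ℝ) ≠ 0 := by positivity
  have hq' : (q : ℝ) + 1 ≠ 0 := by positivity
  rw [density_pair ss tt ww fun v : SV m q => g v.1]
  have h1 : ∑ e : SE m q, ww e * (g (ss e).1 + g (tt e).1) =
      1 / (m * 2 ^ m * (q + 1)) * (∑ e : SE m q, g (ss e).1 + ∑ e : SE m q, g (tt e).1) := by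
    rw [← Finset.sum_add_distrib, Finset.mul_sum]
    rfl
  have h2 : ∑ e : SE m q, g (ss e).1 = m * (q + 1) * ∑ x, g x := by
    rw [sum_SE]
    simp only [ss, Finset.sum_const, card_univ, Fintype.card_fin, nsmul_eq_mul]
    rw [Finset.mul_sum]
    refine Finset.sum_congr rfl fun x _ => ?_
    push_cast
    ring
  have h3 : ∑ e : SE m q, g (tt e).1 = m * (q + 1) * ∑ x, g x := by
    rw [sum_SE, Finset.sum_comm]
    have h4 : ∀ i : Fin m, ∑ x : Fin m → Bool, ∑ p : Fin (q + 1), g (tt (x, (i, p))).1 =
        (q + 1) * ∑ x, g x := by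
      intro i
      rw [Finset.sum_comm]
      have h5 : ∀ p : Fin (q + 1), ∑ x : Fin m → Bool, g (tt (x, (i, p))).1 = ∑ x, g x := by
        intro p
        by_cases hp : (p : ℕ) < q
        · refine Finset.sum_congr rfl fun x _ => ?_
          unfold tt
          rw [dif_pos hp]
        · rw [← sum_flip i g]
          refine Finset.sum_congr rfl fun x _ => ?_
          unfold tt
          rw [dif_neg hp]
      rw [Finset.sum_congr rfl fun p _ => h5 p]
      simp
    rw [Finset.sum_congr rfl fun i _ => h4 i]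
    simp
    ring
  rw [h1, h2, h3]
  field_simp
  ring

/-- one step of the linear interpolation -/
noncomputable def th (q k : ℕ) : ℝ := 1 - 2 * k / (2 * q + 1)

/-- the direction `i` is one of the chosen ones -/
def Hit {m j b : ℕ} (e : Fin j × Fin b → Fin m) (S : Fin j → Fin b) (i : Fin m) : Prop :=
  ∃ l, e (l, S l) = i

instance {m j b : ℕ} (e : Fin j × Fin b → Fin m) (S : Fin j → Fin b) (i : Fin m) :
    Decidable (Hit e S i) := by unfold Hit; infer_instance

/-- the interpolated character -/
noncomputable def tfun {m q j b : ℕ} (e : Fin j × Fin b → Fin m) (S : Fin j → Fin b)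
    (v : SV m q) : ℝ :=
  chi e S v.1 * (match v.2 with
    | none => 1
    | some ip => if Hit e S ip.1 then th q (ip.2 + 1) else 1)

theorem tfun_none {m q j b : ℕ} (e : Fin j × Fin b → Fin m) (S : Fin j → Fin b)
    (x : Fin m → Bool) : tfun (q := q) e S (x, none) = chi e S x := by
  unfold tfun; simp

theorem tfun_some {m q j b : ℕ} (e : Fin j × Fin b → Fin m) (S : Fin j → Fin b)
    (x : Fin m → Bool) (ip : Fin m × Fin q) :
    tfun e S (x, some ip) = chi e S x * (if Hit e S ip.1 then th q (ip.2 + 1) else 1) := rfl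

theorem tfun_pos {m q j b : ℕ} (e : Fin j × Fin b → Fin m) (S : Fin j → Fin b)
    (x : Fin m → Bool) (i : Fin m) (p : Fin (q + 1)) :
    tfun e S (x, pos i p) = chi e S x * (if Hit e S i then th q p else 1) := by
  unfold pos
  by_cases h : 0 < (p : ℕ)
  · rw [dif_pos h, tfun_some]
    have : ((⟨(p : ℕ) - 1, by omega⟩ : Fin q) : ℕ) + 1 = p := by simp; omega
    simp only [this]
  · rw [dif_neg h, tfun_none]
    have : (p : ℕ) = 0 := by omega
    rw [this]
    simp [th]

theorem chi_flip_not {m j b : ℕ} (e : Fin j × Fin b → Fin m) (S : Fin j → Fin b)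
    (x : Fin m → Bool) (k : Fin m) (h : ¬ Hit e S k) :
    chi e S (P325qz.flip x k) = chi e S x := by
  unfold Hit at h
  push Not at h
  unfold chi
  refine Finset.prod_congr rfl fun l _ => ?_
  unfold P325qz.flip
  rw [Function.update_of_ne (h l)]

theorem tfun_diff {m q j b : ℕ} (e : Fin j × Fin b → Fin m) (S : Fin j → Fin b)
    (u : SE m q) : (tfun e S (ss u) - tfun e S (tt u)) ^ 2 ≤
      (2 / (2 * q + 1)) ^ 2 * (if Hit e S u.2.1 then (1 : ℝ) else 0) := by
  obtain ⟨x, i, p⟩ := u
  have hq' : (0 : ℝ) < 2 * q + 1 := by positivity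
  unfold ss tt
  simp only
  rw [tfun_pos]
  by_cases hp : (p : ℕ) < q
  · rw [dif_pos hp, tfun_some]
    simp only
    by_cases hh : Hit e S i
    · rw [if_pos hh, if_pos hh, if_pos hh]
      have h1 := chi_sq e S x
      have h2 : chi e S x * th q p - chi e S x * th q (p + 1) = chi e S x * (2 / (2 * q + 1)) := by
        unfold th
        push_cast
        field_simp
        ring
      rw [h2, mul_pow, h1]
      linarith
    · rw [if_neg hh, if_neg hh, if_neg hh]
      simp
  · rw [dif_neg hp, tfun_pos]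
    by_cases hh : Hit e S i
    · rw [if_pos hh, if_pos hh]
      have h1 := chi_sq e S x
      have h2 := chi_sq e S (P325qz.flip x i)
      have h3 : th q p = 1 / (2 * q + 1) := by
        have : (p : ℕ) = q := by omega
        rw [this]
        unfold th
        field_simp
        ring
      rw [h3]
      have h4 : (chi e S x * (1 / (2 * (q : ℝ) + 1)) -
          chi e S (P325qz.flip x i) * (1 / (2 * q + 1))) ^ 2 =
          (1 / (2 * q + 1)) ^ 2 * (chi e S x - chi e S (P325qz.flip x i)) ^ 2 := by ring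
      have h5 : (chi e S x - chi e S (P325qz.flip x i)) ^ 2 ≤ 4 := by
        nlinarith [sq_nonneg (chi e S x + chi e S (P325qz.flip x i))]
      rw [h4]
      calc (1 / (2 * (q : ℝ) + 1)) ^ 2 * (chi e S x - chi e S (P325qz.flip x i)) ^ 2 ≤
          (1 / (2 * q + 1)) ^ 2 * 4 := by gcongr
        _ = _ := by ring
    · rw [if_neg hh, if_neg hh, chi_flip_not e S x i hh]
      simp

theorem th_mem {q k : ℕ} (hk : k ≤ q) : 0 ≤ th q k ∧ th q k ≤ 1 := by
  have hq' : (0 : ℝ) < 2 * q + 1 := by positivity
  have hk' : (k : ℝ) ≤ q := by exact_mod_cast hk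
  unfold th
  constructor
  · rw [sub_nonneg, div_le_one hq']
    linarith
  · have : (0 : ℝ) ≤ 2 * k / (2 * q + 1) := by positivity
    linarith

/-- the direction of a vertex -/
noncomputable def hitv {m q j b : ℕ} (e : Fin j × Fin b → Fin m) (S : Fin j → Fin b)
    (v : SV m q) : ℝ :=
  match v.2 with
    | none => 0
    | some ip => if Hit e S ip.1 then 1 else 0

theorem tfun_sub {m q j b : ℕ} (e : Fin j × Fin b → Fin m) (S : Fin j → Fin b)
    (v : SV m q) : (tfun e S v - chi e S v.1) ^ 2 ≤ hitv e S v := by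
  obtain ⟨x, o⟩ := v
  rcases o with _ | ip
  · rw [tfun_none]
    simp [hitv]
  · rw [tfun_some]
    have h1 := chi_sq e S x
    have h2 := th_mem (q := q) (k := ip.2 + 1) (by have := ip.2.2; omega)
    change (chi e S x * (if Hit e S ip.1 then th q (ip.2 + 1) else 1) - chi e S x) ^ 2 ≤
      (if Hit e S ip.1 then 1 else 0)
    by_cases hh : Hit e S ip.1
    · rw [if_pos hh, if_pos hh]
      have h3 : (chi e S x * th q (ip.2 + 1) - chi e S x) ^ 2 =
          chi e S x ^ 2 * (1 - th q (ip.2 + 1)) ^ 2 := by ring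
      rw [h3, h1]
      nlinarith [h2.1, h2.2]
    · rw [if_neg hh, if_neg hh]
      simp

theorem tfun_sq {m q j b : ℕ} (e : Fin j × Fin b → Fin m) (S : Fin j → Fin b)
    (v : SV m q) : 1 - hitv e S v ≤ tfun e S v ^ 2 := by
  obtain ⟨x, o⟩ := v
  rcases o with _ | ip
  · rw [tfun_none, chi_sq]
    simp [hitv]
  · rw [tfun_some]
    have h1 := chi_sq e S x
    change 1 - (if Hit e S ip.1 then (1 : ℝ) else 0) ≤ _
    by_cases hh : Hit e S ip.1
    · rw [if_pos hh, if_pos hh]
      have := sq_nonneg (chi e S x * th q (ip.2 + 1))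
      linarith
    · rw [if_neg hh, if_neg hh, mul_one, h1]
      linarith

/-- a direction is chosen with probability at most `1 / b` -/
theorem sum_hit {m j b : ℕ} (hb : 0 < b) (e : Fin j × Fin b → Fin m)
    (he : Function.Injective e) (i : Fin m) :
    ∑ S : Fin j → Fin b, (if Hit e S i then (1 : ℝ) else 0) ≤ (b : ℝ) ^ j / b := by
  have hb' : (0 : ℝ) < b := by exact_mod_cast hb
  by_cases hi : ∃ p, e p = i
  · obtain ⟨⟨l0, a0⟩, rfl⟩ := hi
    have h1 : ∀ S : Fin j → Fin b, (if Hit e S (e (l0, a0)) then (1 : ℝ) else 0) =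
        ∏ l, (if l = l0 then (if S l = a0 then (1 : ℝ) else 0) else 1) := by
      intro S
      rw [Finset.prod_ite_eq' univ l0 (fun l => if S l = a0 then (1 : ℝ) else 0)]
      rw [if_pos (mem_univ _)]
      by_cases h : S l0 = a0
      · rw [if_pos h, if_pos]
        exact ⟨l0, by rw [h]⟩
      · rw [if_neg h, if_neg]
        rintro ⟨l, hl⟩
        have := he hl
        rw [Prod.mk.injEq] at this
        obtain ⟨h2, h3⟩ := this
        subst h2
        exact h h3
    rw [Finset.sum_congr rfl fun S _ => h1 S]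
    have h2 := Finset.prod_univ_sum (fun _ : Fin j => (univ : Finset (Fin b)))
      (fun l a => if l = l0 then (if a = a0 then (1 : ℝ) else 0) else 1)
    rw [Fintype.piFinset_univ] at h2
    rw [← h2]
    have h3 : ∀ l : Fin j, ∑ a : Fin b, (if l = l0 then (if a = a0 then (1 : ℝ) else 0) else 1) =
        if l = l0 then 1 else (b : ℝ) := by
      intro l
      by_cases hl : l = l0
      · simp [hl]
      · simp [hl]
    rw [Finset.prod_congr rfl fun l _ => h3 l, ← Finset.mul_prod_erase univ _ (mem_univ l0),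
      if_pos rfl, one_mul]
    have h4 : ∏ l ∈ univ.erase l0, (if l = l0 then (1 : ℝ) else b) = (b : ℝ) ^ (j - 1) := by
      rw [Finset.prod_congr rfl (g := fun _ => (b : ℝ)) fun l hl => ?_]
      · rw [Finset.prod_const, Finset.card_erase_of_mem (mem_univ _), card_univ, Fintype.card_fin]
      · rw [if_neg (Finset.ne_of_mem_erase hl)]
    rw [h4, le_div_iff₀ hb', ← pow_succ]
    have : j - 1 + 1 = j := by
      have := l0.2
      omega
    rw [this]
  · have h1 : ∀ S : Fin j → Fin b, (if Hit e S i then (1 : ℝ) else 0) = 0 := by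
      intro S
      rw [if_neg]
      rintro ⟨l, hl⟩
      exact hi ⟨_, hl⟩
    rw [Finset.sum_congr rfl fun S _ => h1 S, Finset.sum_const_zero]
    positivity

theorem sum_hitv {m q j b : ℕ} (hb : 0 < b) (e : Fin j × Fin b → Fin m)
    (he : Function.Injective e) (v : SV m q) :
    ∑ S : Fin j → Fin b, hitv e S v ≤ (b : ℝ) ^ j / b := by
  obtain ⟨x, o⟩ := v
  rcases o with _ | ip
  · have : ∀ S : Fin j → Fin b, hitv e S ((x, none) : SV m q) = 0 := fun S => rfl
    rw [Finset.sum_congr rfl fun S _ => this S, Finset.sum_const_zero]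
    positivity
  · exact sum_hit hb e he ip.1

end P325qs
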