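import Mathlib
import Pool.Agent.Lib.P325qz.Marg
import Pool.Agent.Lib.P325qz.Slow
import Pool.Agent.Lib.P325qs.Graph

/-!
P325qs.Capt (MP_325f1f_lc, helper45): a part of the subdivided hypercube of small entropy has many
small eigenvalues.
-/

namespace P325qs

open Finset Real P325qz
open Pool.Agent.Lib.P325q (density mass energy IsSlow)

/-- `capture_num` with an average over the transversal characters. -/
theorem capture_avg {m b j R : ℕ} (hb : 12 ≤ b) (hj : 0 < j) (hm : m ≤ 2 * (j * b))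
    (e : Fin j × Fin b → Fin m) (he : Function.Injective e)
    (μ : (Fin m → Bool) → ℝ) (h0 : ∀ x, 0 ≤ μ x) (h1 : ∑ x, μ x = 1)
    (hD : Dkl μ ≤ m / 64) (Λ : Fin R → ((Fin m → Bool) → ℝ) →ₗ[ℝ] ℝ)
    (hΛ : ∀ g : (Fin m → Bool) → ℝ, ∑ r, (Λ r g) ^ 2 ≤ ∑ x, μ x * g x ^ 2)
    (hlow : √((b : ℝ) ^ j) * √(7 / 8) ≤
      √(∑ S : Fin j → Fin b, ∑ r, (Λ r fun x => ∏ l, sg (x (e (l, S l)))) ^ 2)) :
    ((b : ℝ) / 192) ^ j ≤ (20 * (R : ℝ)) ^ 2 := by
  have hb0 : 0 < b := by omega
  have hb' : (0 : ℝ) < b := by exact_mod_cast hb0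
  have hb12 : (12 : ℝ) ≤ b := by exact_mod_cast hb
  have hj' : (0 : ℝ) < j := by exact_mod_cast hj
  have h := capture_cube hb0 hj e he (C := 12) (by norm_num) hb12 μ h0 h1 hD Λ hΛ
  have hbj : 0 < √((b : ℝ) ^ j) := Real.sqrt_pos.2 (by positivity)
  have h2 : √(7 / 8) ≤ 2 ^ j * √R * √√((12 / (b : ℝ)) ^ j) +
      √(8 * ((m : ℝ) / 64) / (j * b) + 4 * log 2 / 12) :=
    le_of_mul_le_mul_left (hlow.trans h) hbj
  have h3 : √(8 * ((m : ℝ) / 64) / (j * b) + 4 * log 2 / 12) ≤ 0.694 := by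
    apply Real.sqrt_le_iff.2
    constructor
    · norm_num
    · have e1 : 8 * ((m : ℝ) / 64) / (j * b) ≤ 1 / 4 := by
        rw [div_le_iff₀ (by positivity)]
        have : (m : ℝ) ≤ 2 * (j * b) := by exact_mod_cast hm
        linarith
      have e2 := Real.log_two_lt_d9
      nlinarith
  have h4 : (0.935 : ℝ) ≤ √(7 / 8) := by
    apply Real.le_sqrt_of_sq_le
    norm_num
  have h5 : (0.241 : ℝ) ≤ 2 ^ j * √R * √√((12 / (b : ℝ)) ^ j) := by linarith
  have hq0 : (0 : ℝ) < 12 / b := by positivity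
  have h6 : (0.241 : ℝ) ^ 4 ≤ (2 ^ j * √R * √√((12 / (b : ℝ)) ^ j)) ^ 4 :=
    pow_le_pow_left₀ (by norm_num) h5 4
  have h7 : (2 ^ j * √R * √√((12 / (b : ℝ)) ^ j)) ^ 4 = (R : ℝ) ^ 2 * (192 / b) ^ j := by
    have e1 : √(R : ℝ) ^ 4 = (R : ℝ) ^ 2 := by
      rw [show (4 : ℕ) = 2 * 2 from rfl, pow_mul, Real.sq_sqrt (Nat.cast_nonneg R)]
    have e2 : √√((12 / (b : ℝ)) ^ j) ^ 4 = (12 / (b : ℝ)) ^ j := by
      rw [show (4 : ℕ) = 2 * 2 from rfl, pow_mul, Real.sq_sqrt (Real.sqrt_nonneg _),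
        Real.sq_sqrt (by positivity)]
    have e3 : ((2 : ℝ) ^ j) ^ 4 = 16 ^ j := by
      rw [← pow_mul, mul_comm, pow_mul]
      norm_num
    rw [mul_pow, mul_pow, e1, e2, e3]
    have e4 : (192 / (b : ℝ)) ^ j = 16 ^ j * (12 / (b : ℝ)) ^ j := by
      rw [← mul_pow]
      congr 1
      ring
    rw [e4]
    ring
  rw [h7] at h6
  have h8 : ((b : ℝ) / 192) ^ j * (192 / b) ^ j = 1 := by
    rw [← mul_pow]
    have : (b : ℝ) / 192 * (192 / b) = 1 := by field_simp
    rw [this, one_pow]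
  have hp : 0 < ((b : ℝ) / 192) ^ j := by positivity
  calc ((b : ℝ) / 192) ^ j = ((b : ℝ) / 192) ^ j * 1 := (mul_one _).symm
    _ ≤ ((b : ℝ) / 192) ^ j * (400 * 0.241 ^ 4) :=
        mul_le_mul_of_nonneg_left (by norm_num) hp.le
    _ ≤ ((b : ℝ) / 192) ^ j * (400 * ((R : ℝ) ^ 2 * (192 / b) ^ j)) := by
        refine mul_le_mul_of_nonneg_left ?_ hp.le
        linarith
    _ = (20 * (R : ℝ)) ^ 2 * (((b : ℝ) / 192) ^ j * (192 / b) ^ j) := by ring
    _ = _ := by rw [h8, mul_one]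

theorem dens_nonneg {m q : ℕ} (v : SV m q) : 0 ≤ density (ss (m := m) (q := q)) tt ww v :=
  density_nonneg ss tt ww_nonneg v

/-- **A part of small entropy has many small eigenvalues.** -/
theorem sub_capture {m q j b : ℕ} (hm : 0 < m) (hb : 512 ≤ b) (hj : 0 < j)
    (hjb : m ≤ 2 * (j * b)) (e : Fin j × Fin b → Fin m) (he : Function.Injective e)
    (σ : SV m q → ℝ) (hσ0 : ∀ v, 0 ≤ σ v) (hσ1 : ∀ v, σ v ≤ 1) {M : ℝ}
    (hM : ∑ v, density ss tt ww v * σ v = M) (hM0 : 0 < M) (hkl : -log M ≤ m / 64)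
    {x : ℝ} (hx0 : 0 < x) (hbx : 512 / x ≤ b) :
    ∃ (R : ℕ) (F : Submodule ℝ (SV m q → ℝ)), Module.finrank ℝ F = R ∧
      IsSlow ss tt ww σ (x / (4 * (2 * q + 1) ^ 2)) F ∧ ((b : ℝ) / 192) ^ j ≤ (20 * (R : ℝ)) ^ 2 := by
  have hb0 : 0 < b := by omega
  have hb' : (0 : ℝ) < b := by exact_mod_cast hb0
  have hb5 : (512 : ℝ) ≤ b := by exact_mod_cast hb
  have hP : (0 : ℝ) < 2 ^ m := by positivity
  have hη : 0 < x / (4 * (2 * (q : ℝ) + 1) ^ 2) := by positivity
  obtain ⟨R, F, h, hF, hslow, hbes, hlow⟩ := exists_slow (ss (m := m) (q := q)) tt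
    (w := ww) ww_nonneg hσ0 hη
  refine ⟨R, F, hF, hslow, ?_⟩
  set η : ℝ := x / (4 * (2 * (q : ℝ) + 1) ^ 2) with hηd
  set d : SV m q → ℝ := fun v => density ss tt ww v with hd
  have hd0 : ∀ v, 0 ≤ d v := dens_nonneg
  -- the law of the nearest vertex of the cube
  set ν : SV m q → ℝ := fun v => d v * σ v / M with hν
  have hν0 : ∀ v, 0 ≤ ν v := fun v => div_nonneg (mul_nonneg (hd0 v) (hσ0 v)) hM0.le
  have hν1 : ∑ v, ν v = 1 := by
    simp only [hν]
    rw [← Finset.sum_div, hM]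
    exact div_self hM0.ne'
  set μ : (Fin m → Bool) → ℝ := marg Prod.fst ν with hμ
  have hμ0 : ∀ y, 0 ≤ μ y := marg_nonneg _ _ hν0
  have hμ1 : ∑ y, μ y = 1 := marg_one _ _ hν1
  have hμle : ∀ y, μ y ≤ 1 / (2 ^ m * M) := by
    intro y
    have h1 : μ y ≤ ∑ v : SV m q, d v * (if v.1 = y then 1 else 0) / M := by
      rw [hμ]
      unfold marg
      refine Finset.sum_le_sum fun v _ => ?_
      split_ifs with hv
      · rw [mul_one]
        simp only [hν]
        apply div_le_div_of_nonneg_right _ hM0.le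
        exact mul_le_of_le_one_right (hd0 v) (hσ1 v)
      · simp
    refine h1.trans (le_of_eq ?_)
    rw [← Finset.sum_div, sum_fst hm fun z => if z = y then (1 : ℝ) else 0]
    simp
    field_simp
  have hDμ : Dkl μ ≤ m / 64 := by
    refine le_trans ?_ hkl
    unfold Dkl
    calc ∑ y, μ y * log (Fintype.card (Fin m → Bool) * μ y) ≤ ∑ y, μ y * -log M := by
          refine Finset.sum_le_sum fun y _ => ?_
          rcases (hμ0 y).eq_or_lt with h2 | h2
          · rw [← h2]; simp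
          · refine mul_le_mul_of_nonneg_left ?_ h2.le
            rw [← Real.log_inv]
            apply Real.log_le_log
            · have : (0 : ℝ) < Fintype.card (Fin m → Bool) := by
                exact_mod_cast Fintype.card_pos
              positivity
            · have h3 := hμle y
              have h4 : ((Fintype.card (Fin m → Bool) : ℕ) : ℝ) = 2 ^ m := by simp
              rw [h4]
              calc (2 : ℝ) ^ m * μ y ≤ 2 ^ m * (1 / (2 ^ m * M)) :=
                    mul_le_mul_of_nonneg_left h3 hP.le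
                _ = M⁻¹ := by field_simp
      _ = -log M := by rw [← Finset.sum_mul, hμ1, one_mul]
  -- the functionals
  set L : Fin R → ((Fin m → Bool) → ℝ) →ₗ[ℝ] ℝ := fun r =>
    { toFun := fun g => (√M)⁻¹ * ∑ v, d v * σ v * h r v * g v.1
      map_add' := by
        intro g g'
        rw [← mul_add, ← Finset.sum_add_distrib]
        congr 1
        exact Finset.sum_congr rfl fun y _ => by rw [Pi.add_apply]; ring
      map_smul' := by
        intro a g
        have e1 : ∑ v, d v * σ v * h r v * (a • g) v.1 = a * ∑ v, d v * σ v * h r v * g v.1 := by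
          rw [Finset.mul_sum]
          exact Finset.sum_congr rfl fun y _ => by rw [Pi.smul_apply, smul_eq_mul]; ring
        rw [e1, RingHom.id_apply, smul_eq_mul]
        ring } with hL
  have hLs : ∀ g : (Fin m → Bool) → ℝ, ∑ r, (L r g) ^ 2 =
      M⁻¹ * ∑ r, (∑ v, d v * σ v * h r v * g v.1) ^ 2 := by
    intro g
    rw [Finset.mul_sum]
    refine Finset.sum_congr rfl fun r _ => ?_
    change ((√M)⁻¹ * ∑ v, d v * σ v * h r v * g v.1) ^ 2 = _
    rw [mul_pow, inv_pow, Real.sq_sqrt hM0.le]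
  have hLbes : ∀ g : (Fin m → Bool) → ℝ, ∑ r, (L r g) ^ 2 ≤ ∑ y, μ y * g y ^ 2 := by
    intro g
    rw [hLs, hμ, marg_sum Prod.fst ν fun y => g y ^ 2]
    have h1 := hbes fun v => g v.1
    have h2 : ∑ v, ν v * g v.1 ^ 2 = M⁻¹ * mass ss tt ww σ fun v : SV m q => g v.1 := by
      unfold mass
      rw [Finset.mul_sum]
      refine Finset.sum_congr rfl fun v _ => ?_
      simp only [hν, hd]
      ring
    rw [h2]
    exact mul_le_mul_of_nonneg_left h1 (by positivity)
  refine capture_avg (by omega) hj hjb e he μ hμ0 hμ1 hDμ L hLbes ?_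
  -- the averages over the characters
  have hcard : ∑ S : Fin j → Fin b, (1 : ℝ) = (b : ℝ) ^ j := by simp
  have hbj : (0 : ℝ) < (b : ℝ) ^ j := by positivity
  have hhit : ∀ v : SV m q, ∑ S : Fin j → Fin b, hitv e S v ≤ (b : ℝ) ^ j / b :=
    sum_hitv hb0 e he
  have hb512 : (b : ℝ) ^ j / b ≤ (b : ℝ) ^ j / 512 :=
    div_le_div_of_nonneg_left hbj.le (by norm_num) hb5
  set a : (Fin j → Fin b) × Fin R → ℝ := fun p => ∑ v, d v * σ v * h p.2 v * tfun e p.1 v with ha
  set c : (Fin j → Fin b) × Fin R → ℝ := fun p =>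
    ∑ v, d v * σ v * h p.2 v * chi e p.1 v.1 with hc
  set g : (Fin j → Fin b) × Fin R → ℝ := fun p =>
    ∑ v, d v * σ v * h p.2 v * (tfun e p.1 v - chi e p.1 v.1) with hg
  have hacg : ∀ p, a p = c p + g p := by
    intro p
    simp only [ha, hc, hg]
    rw [← Finset.sum_add_distrib]
    exact Finset.sum_congr rfl fun v _ => by ring
  have htri : √(∑ p, a p ^ 2) ≤ √(∑ p, c p ^ 2) + √(∑ p, g p ^ 2) := by
    have := l2_add c g
    rw [Finset.sum_congr rfl fun p _ => by rw [hacg p]]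
    exact this
  -- upper bound for the difference
  have hgle : ∑ p, g p ^ 2 ≤ (b : ℝ) ^ j / 512 * M := by
    rw [Fintype.sum_prod_type]
    calc ∑ S, ∑ r, g (S, r) ^ 2 ≤ ∑ S : Fin j → Fin b, mass ss tt ww σ fun v : SV m q =>
            tfun e S v - chi e S v.1 := by
          refine Finset.sum_le_sum fun S _ => ?_
          exact hbes fun v => tfun e S v - chi e S v.1
      _ ≤ ∑ S : Fin j → Fin b, ∑ v, d v * σ v * hitv e S v := by
          refine Finset.sum_le_sum fun S _ => ?_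
          unfold mass
          refine Finset.sum_le_sum fun v _ => ?_
          exact mul_le_mul_of_nonneg_left (tfun_sub e S v) (mul_nonneg (hd0 v) (hσ0 v))
      _ = ∑ v, d v * σ v * ∑ S : Fin j → Fin b, hitv e S v := by
          rw [Finset.sum_comm]
          exact Finset.sum_congr rfl fun v _ => by rw [Finset.mul_sum]
      _ ≤ ∑ v, d v * σ v * ((b : ℝ) ^ j / 512) := by
          refine Finset.sum_le_sum fun v _ => ?_
          exact mul_le_mul_of_nonneg_left ((hhit v).trans hb512) (mul_nonneg (hd0 v) (hσ0 v))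
      _ = _ := by rw [← Finset.sum_mul, hM]; ring
  -- the energies
  have hen : ∑ S : Fin j → Fin b, energy ss tt ww σ (tfun e S) ≤
      (2 / (2 * (q : ℝ) + 1)) ^ 2 * ((b : ℝ) ^ j / b) * M := by
    have h1 : ∑ u : SE m q, ww u * √(σ (ss u) * σ (tt u)) ≤ M := by
      rw [← hM, density_pair ss tt ww σ, Finset.sum_div]
      refine Finset.sum_le_sum fun u _ => ?_
      rw [mul_div_assoc]
      refine mul_le_mul_of_nonneg_left ?_ (ww_nonneg u)
      rw [Real.sqrt_le_iff]
      have h2 := hσ0 (ss u)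
      have h3 := hσ0 (tt u)
      constructor
      · positivity
      · nlinarith [sq_nonneg (σ (ss u) - σ (tt u))]
    calc ∑ S : Fin j → Fin b, energy ss tt ww σ (tfun e S) ≤
          ∑ S : Fin j → Fin b, ∑ u : SE m q, ww u * √(σ (ss u) * σ (tt u)) *
            ((2 / (2 * (q : ℝ) + 1)) ^ 2 * (if Hit e S u.2.1 then (1 : ℝ) else 0)) := by
          refine Finset.sum_le_sum fun S _ => ?_
          unfold energy
          refine Finset.sum_le_sum fun u _ => ?_
          rw [← mul_assoc]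
          exact mul_le_mul_of_nonneg_left (tfun_diff e S u)
            (mul_nonneg (ww_nonneg u) (Real.sqrt_nonneg _))
      _ = ∑ u : SE m q, ww u * √(σ (ss u) * σ (tt u)) *
            ((2 / (2 * (q : ℝ) + 1)) ^ 2 *
              ∑ S : Fin j → Fin b, (if Hit e S u.2.1 then (1 : ℝ) else 0)) := by
          rw [Finset.sum_comm]
          refine Finset.sum_congr rfl fun u _ => ?_
          rw [Finset.mul_sum, Finset.mul_sum]
      _ ≤ ∑ u : SE m q, ww u * √(σ (ss u) * σ (tt u)) *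
            ((2 / (2 * (q : ℝ) + 1)) ^ 2 * ((b : ℝ) ^ j / b)) := by
          refine Finset.sum_le_sum fun u _ => ?_
          refine mul_le_mul_of_nonneg_left ?_ (mul_nonneg (ww_nonneg u) (Real.sqrt_nonneg _))
          exact mul_le_mul_of_nonneg_left (sum_hit hb0 e he _) (by positivity)
      _ = (2 / (2 * (q : ℝ) + 1)) ^ 2 * ((b : ℝ) ^ j / b) *
            ∑ u : SE m q, ww u * √(σ (ss u) * σ (tt u)) := by
          rw [← Finset.sum_mul]
          ring
      _ ≤ _ := mul_le_mul_of_nonneg_left h1 (by positivity)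
  have hen2 : (∑ S : Fin j → Fin b, energy ss tt ww σ (tfun e S)) / η ≤ (b : ℝ) ^ j / 32 * M := by
    rw [div_le_iff₀ hη]
    refine hen.trans ?_
    have hbx' : 512 ≤ b * x := by
      rw [div_le_iff₀ hx0] at hbx
      exact hbx
    rw [hηd]
    have h1 : (2 / (2 * (q : ℝ) + 1)) ^ 2 * ((b : ℝ) ^ j / b) * M =
        ((b : ℝ) ^ j * M / (2 * q + 1) ^ 2) * (4 / b) := by
      field_simp
      norm_num
    have h2 : (b : ℝ) ^ j / 32 * M * (x / (4 * (2 * (q : ℝ) + 1) ^ 2)) =
        ((b : ℝ) ^ j * M / (2 * q + 1) ^ 2) * (x / 128) := by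
      field_simp
      ring
    rw [h1, h2]
    refine mul_le_mul_of_nonneg_left ?_ (by positivity)
    rw [div_le_div_iff₀ hb' (by norm_num)]
    linarith
  -- lower bound
  have hmass : (b : ℝ) ^ j * M - (b : ℝ) ^ j / 512 * M ≤
      ∑ S : Fin j → Fin b, mass ss tt ww σ (tfun (q := q) e S) := by
    calc (b : ℝ) ^ j * M - (b : ℝ) ^ j / 512 * M ≤
          ∑ v, d v * σ v * ((b : ℝ) ^ j - ∑ S : Fin j → Fin b, hitv e S v) := by
          have h1 : (b : ℝ) ^ j * M - (b : ℝ) ^ j / 512 * M =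
              ∑ v, d v * σ v * ((b : ℝ) ^ j - (b : ℝ) ^ j / 512) := by
            rw [← Finset.sum_mul, hM]
            ring
          rw [h1]
          refine Finset.sum_le_sum fun v _ => ?_
          refine mul_le_mul_of_nonneg_left ?_ (mul_nonneg (hd0 v) (hσ0 v))
          have := (hhit v).trans hb512
          linarith
      _ = ∑ S : Fin j → Fin b, ∑ v, d v * σ v * (1 - hitv e S v) := by
          rw [Finset.sum_comm]
          refine Finset.sum_congr rfl fun v _ => ?_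
          rw [← Finset.mul_sum, Finset.sum_sub_distrib, hcard]
      _ ≤ _ := by
          refine Finset.sum_le_sum fun S _ => ?_
          unfold mass
          refine Finset.sum_le_sum fun v _ => ?_
          exact mul_le_mul_of_nonneg_left (tfun_sq e S v) (mul_nonneg (hd0 v) (hσ0 v))
  have hage : (b : ℝ) ^ j * M * (1 - 1 / 512 - 1 / 32) ≤ ∑ p, a p ^ 2 := by
    rw [Fintype.sum_prod_type]
    have h1 : ∑ S : Fin j → Fin b, (mass ss tt ww σ (tfun (q := q) e S) -
        energy ss tt ww σ (tfun e S) / η) ≤ ∑ S, ∑ r, a (S, r) ^ 2 :=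
      Finset.sum_le_sum fun S _ => hlow (tfun e S)
    rw [Finset.sum_sub_distrib, ← Finset.sum_div] at h1
    linarith
  -- conclusion
  have hbM : 0 < (b : ℝ) ^ j * M := by positivity
  have h1 : √((b : ℝ) ^ j * M) * 0.9832 ≤ √(∑ p, a p ^ 2) := by
    have e1 : (0.9832 : ℝ) = √(0.9832 ^ 2) := (Real.sqrt_sq (by norm_num)).symm
    rw [e1, ← Real.sqrt_mul hbM.le]
    apply Real.sqrt_le_sqrt
    refine le_trans ?_ hage
    refine mul_le_mul_of_nonneg_left (by norm_num) hbM.le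
  have h2 : √(∑ p, g p ^ 2) ≤ √((b : ℝ) ^ j * M) * 0.0442 := by
    have e1 : (0.0442 : ℝ) = √(0.0442 ^ 2) := (Real.sqrt_sq (by norm_num)).symm
    rw [e1, ← Real.sqrt_mul hbM.le]
    apply Real.sqrt_le_sqrt
    refine hgle.trans ?_
    have : (b : ℝ) ^ j / 512 * M = (b : ℝ) ^ j * M * (1 / 512) := by ring
    rw [this]
    refine mul_le_mul_of_nonneg_left (by norm_num) hbM.le
  have h3 : √((b : ℝ) ^ j * M) * 0.939 ≤ √(∑ p, c p ^ 2) := by
    have : √((b : ℝ) ^ j * M) * 0.939 = √((b : ℝ) ^ j * M) * 0.9832 -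
      √((b : ℝ) ^ j * M) * 0.0442 := by ring
    linarith
  have h4 : ∑ S : Fin j → Fin b, ∑ r, (L r fun x => ∏ l, sg (x (e (l, S l)))) ^ 2 =
      M⁻¹ * ∑ p, c p ^ 2 := by
    rw [Fintype.sum_prod_type, Finset.mul_sum]
    refine Finset.sum_congr rfl fun S _ => ?_
    exact hLs (chi e S)
  rw [h4, Real.sqrt_mul (by positivity), Real.sqrt_inv]
  have hsM : 0 < √M := Real.sqrt_pos.2 hM0
  have h5 : √((b : ℝ) ^ j * M) = √((b : ℝ) ^ j) * √M := Real.sqrt_mul hbj.le _
  rw [h5] at h3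
  have h6 : √(7 / 8) ≤ (0.939 : ℝ) := by
    rw [Real.sqrt_le_iff]
    constructor
    · norm_num
    · norm_num
  calc √((b : ℝ) ^ j) * √(7 / 8) ≤ √((b : ℝ) ^ j) * 0.939 :=
        mul_le_mul_of_nonneg_left h6 (Real.sqrt_nonneg _)
    _ = (√M)⁻¹ * (√((b : ℝ) ^ j) * √M * 0.939) := by field_simp
    _ ≤ _ := mul_le_mul_of_nonneg_left h3 (by positivity)

end P325qs
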