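import Mathlib
import Pool.Agent.Lib.P325qs.Graph

/-!
P325qs.Part (MP_325f1f_lc, helper45): a cheap partition of the subdivided hypercube into sets has a
part of small entropy.
-/

namespace P325qs

open Finset Real P325qz
open Pool.Agent.Lib.P325q (density mass energy IsSlow)

/-- The weight of the edges between different parts. -/
noncomputable def cutWeight {V ι I : Type} [Fintype ι] [DecidableEq I] (s t : ι → V) (w : ι → ℝ)
    (P : V → I) : ℝ := ∑ e, if P (s e) = P (t e) then 0 else w e

theorem good_part {m q : ℕ} (hm : 1024 ≤ m) {I : Type} [Fintype I] [DecidableEq I]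
    (P : SV m q → I) (hcut : cutWeight ss tt ww P ≤ 1 / (140 * (q + 1))) :
    ∃ i, 0 < ∑ v, density ss tt ww v * (if P v = i then 1 else 0) ∧
      -log (∑ v, density ss tt ww v * (if P v = i then 1 else 0)) ≤ m / 64 := by
  have hm0 : 0 < m := by omega
  have hm' : (0 : ℝ) < m := by exact_mod_cast hm0
  have hmr : (1024 : ℝ) ≤ m := by exact_mod_cast hm
  have hP2 : (0 : ℝ) < 2 ^ m := by positivity
  have hq' : (0 : ℝ) < (q : ℝ) + 1 := by positivity
  -- cut edges
  set K : SE m q → ℝ := fun u => if P (ss u) = P (tt u) then 0 else 1 with hK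
  have hK0 : ∀ u, 0 ≤ K u := fun u => by simp only [hK]; split_ifs <;> norm_num
  have hKs : ∑ u, K u ≤ m * 2 ^ m / 140 := by
    have h1 : cutWeight ss tt ww P = 1 / (m * 2 ^ m * (q + 1)) * ∑ u, K u := by
      unfold cutWeight
      rw [Finset.mul_sum]
      refine Finset.sum_congr rfl fun u _ => ?_
      simp only [hK, ww]
      split_ifs <;> ring
    rw [h1] at hcut
    have h2 : ∑ u, K u = (m * 2 ^ m * (q + 1)) * (1 / (m * 2 ^ m * (q + 1)) * ∑ u, K u) := by
      field_simp
    rw [h2]
    calc (m * 2 ^ m * ((q : ℝ) + 1)) * (1 / (m * 2 ^ m * (q + 1)) * ∑ u, K u) ≤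
        (m * 2 ^ m * (q + 1)) * (1 / (140 * (q + 1))) :=
          mul_le_mul_of_nonneg_left hcut (by positivity)
      _ = _ := by field_simp
  -- bad half paths
  set B : (Fin m → Bool) → Fin m → ℝ := fun x k =>
    if ∀ p : Fin (q + 1), P (ss (x, (k, p))) = P (tt (x, (k, p))) then 0 else 1 with hB
  have hB0 : ∀ x k, 0 ≤ B x k := fun x k => by simp only [hB]; split_ifs <;> norm_num
  have hB1 : ∀ x k, B x k ≤ 1 := fun x k => by simp only [hB]; split_ifs <;> norm_num
  have hBK : ∀ x k, B x k ≤ ∑ p : Fin (q + 1), K (x, (k, p)) := by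
    intro x k
    simp only [hB]
    split_ifs with h
    · exact Finset.sum_nonneg fun p _ => hK0 _
    · push Not at h
      obtain ⟨p, hp⟩ := h
      have h1 : K (x, (k, p)) = 1 := by simp only [hK]; rw [if_neg hp]
      rw [← h1]
      exact Finset.single_le_sum (f := fun p => K (x, (k, p))) (fun p _ => hK0 _) (mem_univ p)
  have hBs : ∑ x, ∑ k, B x k ≤ m * 2 ^ m / 140 := by
    refine le_trans ?_ hKs
    rw [sum_SE]
    exact Finset.sum_le_sum fun x _ => Finset.sum_le_sum fun k _ => hBK x k
  -- the partition of the cube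
  set f : (Fin m → Bool) → I := fun x => P (x, none) with hf
  have hgood : ∀ x k, (∀ p : Fin (q + 1), P (ss (x, (k, p))) = P (tt (x, (k, p)))) →
      ∀ n (hn : n < q + 1), P (x, pos k ⟨n, hn⟩) = f x := by
    intro x k h n
    induction n with
    | zero =>
      intro hn
      have : pos k (⟨0, hn⟩ : Fin (q + 1)) = none := by
        unfold pos
        rw [dif_neg (by simp)]
      rw [this]
    | succ n ih =>
      intro hn
      have h1 := h ⟨n, by omega⟩
      have h2 := ih (by omega)
      unfold ss tt at h1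
      simp only at h1
      rw [dif_pos (by omega : n < q)] at h1
      have h3 : pos k (⟨n + 1, hn⟩ : Fin (q + 1)) = some (k, ⟨n, by omega⟩) := by
        unfold pos
        rw [dif_pos (by simp)]
        simp
      rw [h3, ← h1, h2]
  have hgood2 : ∀ x k, (∀ p : Fin (q + 1), P (ss (x, (k, p))) = P (tt (x, (k, p)))) →
      P (P325qz.flip x k, pos k ⟨q, by omega⟩) = f x := by
    intro x k h
    have h1 := h ⟨q, by omega⟩
    have h2 := hgood x k h q (by omega)
    unfold ss tt at h1
    simp only at h1
    rw [dif_neg (by omega)] at h1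
    rw [← h1, h2]
  have hflip : ∀ x k, (if f x = f (P325qz.flip x k) then (0 : ℝ) else 1) ≤
      B x k + B (P325qz.flip x k) k := by
    intro x k
    split_ifs with h
    · exact add_nonneg (hB0 _ _) (hB0 _ _)
    · by_cases h1 : ∀ p : Fin (q + 1), P (ss (x, (k, p))) = P (tt (x, (k, p)))
      · by_cases h2 : ∀ p : Fin (q + 1), P (ss (P325qz.flip x k, (k, p))) =
          P (tt (P325qz.flip x k, (k, p)))
        · exfalso
          apply h
          rw [← hgood2 x k h1, hgood _ k h2 q (by omega)]
        · have : B (P325qz.flip x k) k = 1 := by simp only [hB]; rw [if_neg h2]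
          have := hB0 x k
          linarith
      · have : B x k = 1 := by simp only [hB]; rw [if_neg h1]
        have := hB0 (P325qz.flip x k) k
        linarith
  set F : I → (Fin m → Bool) → ℝ := fun i x => if f x = i then 1 else 0 with hF
  have hF0 : ∀ i x, 0 ≤ F i x := fun i x => by simp only [hF]; split_ifs <;> norm_num
  have hFs : ∀ x, ∑ i, F i x = 1 := fun x => by simp [hF]
  set T : I → ℝ := fun i => ∑ x, F i x with hT
  have hT0 : ∀ i, 0 ≤ T i := fun i => Finset.sum_nonneg fun x _ => hF0 i x
  have hTs : ∑ i, T i = 2 ^ m := by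
    simp only [hT]
    rw [Finset.sum_comm, Finset.sum_congr rfl fun x _ => hFs x]
    simp
  have hTle : ∀ i, T i ≤ 2 ^ m := by
    intro i
    rw [← hTs]
    exact Finset.single_le_sum (fun i _ => hT0 i) (mem_univ i)
  set E : I → ℝ := fun i => ∑ x, ∑ k, (√(F i x) - √(F i (P325qz.flip x k))) ^ 2 with hE
  have hE0 : ∀ i, 0 ≤ E i := fun i => Finset.sum_nonneg fun x _ => Finset.sum_nonneg fun k _ =>
    sq_nonneg _
  have hEs : ∑ i, E i ≤ 4 * (m * 2 ^ m / 140) := by
    have h1 : ∀ x y, ∑ i, (√(F i x) - √(F i y)) ^ 2 ≤ 2 * (if f x = f y then (0 : ℝ) else 1) := by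
      intro x y
      split_ifs with h
      · rw [Finset.sum_eq_zero, mul_zero]
        intro i _
        simp only [hF]
        rw [h]
        ring
      · calc ∑ i, (√(F i x) - √(F i y)) ^ 2 ≤ ∑ i, (F i x + F i y) := by
              refine Finset.sum_le_sum fun i _ => ?_
              simp only [hF]
              split_ifs <;> norm_num
          _ = 2 * 1 := by rw [Finset.sum_add_distrib, hFs, hFs]; norm_num
    calc ∑ i, E i = ∑ x, ∑ k, ∑ i, (√(F i x) - √(F i (P325qz.flip x k))) ^ 2 := by
          simp only [hE]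
          rw [Finset.sum_comm]
          refine Finset.sum_congr rfl fun x _ => ?_
          rw [Finset.sum_comm]
      _ ≤ ∑ x, ∑ k, 2 * (B x k + B (P325qz.flip x k) k) := by
          refine Finset.sum_le_sum fun x _ => Finset.sum_le_sum fun k _ => ?_
          refine (h1 _ _).trans ?_
          exact mul_le_mul_of_nonneg_left (hflip x k) (by norm_num)
      _ = 4 * ∑ x, ∑ k, B x k := by
          have h2 : ∑ x, ∑ k, B (P325qz.flip x k) k = ∑ x, ∑ k, B x k := by
            rw [Finset.sum_comm, Finset.sum_comm (f := fun x k => B x k)]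
            exact Finset.sum_congr rfl fun k _ => sum_flip k fun x => B x k
          have h3 : ∑ x, ∑ k, 2 * (B x k + B (P325qz.flip x k) k) =
              2 * (∑ x, ∑ k, B x k + ∑ x, ∑ k, B (P325qz.flip x k) k) := by
            rw [← Finset.sum_add_distrib, Finset.mul_sum]
            refine Finset.sum_congr rfl fun x _ => ?_
            rw [← Finset.sum_add_distrib, Finset.mul_sum]
          rw [h3, h2]
          ring
      _ ≤ _ := mul_le_mul_of_nonneg_left hBs (by norm_num)
  have hent : ∀ i, 0 < T i → T i * log (2 ^ m / T i) ≤ 1 / 2 * E i := by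
    intro i hi
    have h1 := Dkl_part (F i) (hF0 i) hi
    refine le_trans (le_of_eq ?_) h1
    change T i * log (2 ^ m / T i) = T i * Dkl (fun x => F i x / T i)
    congr 1
    unfold Dkl
    have h2 : ∀ x, F i x / T i * log (Fintype.card (Fin m → Bool) * (F i x / T i)) =
        F i x / T i * log (2 ^ m / T i) := by
      intro x
      have h3 : ((Fintype.card (Fin m → Bool) : ℕ) : ℝ) = 2 ^ m := by simp
      rw [h3]
      by_cases h : f x = i
      · have : F i x = 1 := by simp only [hF]; rw [if_pos h]
        rw [this, mul_one_div]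
      · have : F i x = 0 := by simp only [hF]; rw [if_neg h]
        rw [this]
        simp
    rw [Finset.sum_congr rfl fun x _ => h2 x, ← Finset.sum_mul, ← Finset.sum_div]
    change _ = T i / T i * _
    rw [div_self hi.ne', one_mul]
  set D : I → ℝ := fun i => ∑ x, F i x * ∑ k, B x k with hD
  have hD0 : ∀ i, 0 ≤ D i := fun i => Finset.sum_nonneg fun x _ =>
    mul_nonneg (hF0 i x) (Finset.sum_nonneg fun k _ => hB0 x k)
  have hDs : ∑ i, D i ≤ m * 2 ^ m / 140 := by
    refine le_trans (le_of_eq ?_) hBs
    simp only [hD]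
    rw [Finset.sum_comm]
    refine Finset.sum_congr rfl fun x _ => ?_
    rw [← Finset.sum_mul, hFs, one_mul]
  -- the choice of the part
  have hpart : ∃ i, 0 < T i ∧ T i * log (2 ^ m / T i) + D i / 10 ≤ 0.015 * m * T i := by
    by_contra hcon
    push Not at hcon
    have h2 : ∀ i, 0.015 * m * T i ≤ 1 / 2 * E i + D i / 10 := by
      intro i
      rcases (hT0 i).eq_or_lt with h | h
      · rw [← h, mul_zero]
        have := hE0 i
        have := hD0 i
        positivity
      · have h3 := hent i h
        have h4 := hcon i h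
        linarith
    have h5 : ∃ i, 0 < T i := by
      by_contra hc
      push Not at hc
      have : ∑ i, T i ≤ 0 := Finset.sum_nonpos fun i _ => hc i
      rw [hTs] at this
      linarith
    obtain ⟨i0, hi0⟩ := h5
    have h6 : ∑ i, 0.015 * m * T i < ∑ i, (1 / 2 * E i + D i / 10) := by
      refine Finset.sum_lt_sum (fun i _ => h2 i) ⟨i0, mem_univ _, ?_⟩
      have h3 := hent i0 hi0
      have h4 := hcon i0 hi0
      linarith
    rw [← Finset.mul_sum, hTs, Finset.sum_add_distrib, ← Finset.mul_sum, ← Finset.sum_div] at h6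
    linarith
  obtain ⟨i, hi, hpi⟩ := hpart
  have hlog0 : 0 ≤ log (2 ^ m / T i) := by
    apply Real.log_nonneg
    rw [le_div_iff₀ hi, one_mul]
    exact hTle i
  have hlog1 : log (2 ^ m / T i) ≤ 0.015 * m := by
    have h1 : T i * log (2 ^ m / T i) ≤ T i * (0.015 * m) := by
      have := hD0 i
      linarith
    exact le_of_mul_le_mul_left h1 hi
  have hDi : D i ≤ 0.15 * m * T i := by
    have : 0 ≤ T i * log (2 ^ m / T i) := mul_nonneg hi.le hlog0
    linarith
  -- the mass of the part
  have hmass : 0.85 * T i / 2 ^ m ≤ ∑ v, density ss tt ww v * (if P v = i then 1 else 0) := by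
    rw [density_pair ss tt ww fun v => if P v = i then (1 : ℝ) else 0]
    have h1 : ∀ x k (p : Fin (q + 1)), F i x * (1 - B x k) ≤
        ((if P (ss (x, (k, p))) = i then (1 : ℝ) else 0) +
          (if P (tt (x, (k, p))) = i then 1 else 0)) / 2 := by
      intro x k p
      have hR : (0 : ℝ) ≤ ((if P (ss (x, (k, p))) = i then (1 : ℝ) else 0) +
          (if P (tt (x, (k, p))) = i then 1 else 0)) / 2 := by
        split_ifs <;> norm_num
      by_cases h : f x = i
      · by_cases h1 : ∀ p : Fin (q + 1), P (ss (x, (k, p))) = P (tt (x, (k, p)))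
        · have h2 : P (ss (x, (k, p))) = i := by
            rw [← h]
            exact hgood x k h1 p p.2
          have h3 : P (tt (x, (k, p))) = i := by rw [← h1 p]; exact h2
          rw [if_pos h2, if_pos h3]
          have h4 := hB0 x k
          have h5 : F i x = 1 := by simp only [hF]; rw [if_pos h]
          rw [h5]
          linarith
        · have : B x k = 1 := by simp only [hB]; rw [if_neg h1]
          rw [this, sub_self, mul_zero]
          exact hR
      · have : F i x = 0 := by simp only [hF]; rw [if_neg h]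
        rw [this, zero_mul]
        exact hR
    have h2 : 1 / (m * 2 ^ m * ((q : ℝ) + 1)) * ∑ x, ∑ k, ∑ _p : Fin (q + 1), F i x * (1 - B x k) ≤
        (∑ u : SE m q, ww u * ((if P (ss u) = i then (1 : ℝ) else 0) +
          (if P (tt u) = i then 1 else 0))) / 2 := by
      rw [sum_SE, Finset.mul_sum, Finset.sum_div]
      refine Finset.sum_le_sum fun x _ => ?_
      rw [Finset.mul_sum, Finset.sum_div]
      refine Finset.sum_le_sum fun k _ => ?_
      rw [Finset.mul_sum, Finset.sum_div]
      refine Finset.sum_le_sum fun p _ => ?_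
      rw [mul_div_assoc]
      exact mul_le_mul_of_nonneg_left (h1 x k p) (by positivity)
    refine le_trans ?_ h2
    have h3 : ∑ x, ∑ k, ∑ _p : Fin (q + 1), F i x * (1 - B x k) =
        (q + 1) * (m * T i - D i) := by
      simp only [Finset.sum_const, card_univ, Fintype.card_fin, nsmul_eq_mul]
      have h4 : ∀ x, ∑ k, ((q + 1 : ℕ) : ℝ) * (F i x * (1 - B x k)) =
          (q + 1) * (m * F i x - F i x * ∑ k, B x k) := by
        intro x
        rw [← Finset.mul_sum, ← Finset.mul_sum, Finset.sum_sub_distrib, Finset.sum_const,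
          card_univ, Fintype.card_fin, nsmul_eq_mul]
        push_cast
        ring
      rw [Finset.sum_congr rfl fun x _ => h4 x, ← Finset.mul_sum, Finset.sum_sub_distrib,
        ← Finset.mul_sum]
    rw [h3]
    have h5 : 1 / (m * 2 ^ m * ((q : ℝ) + 1)) * ((q + 1) * (m * T i - D i)) =
        (m * T i - D i) / (m * 2 ^ m) := by
      field_simp
    rw [h5, div_le_div_iff₀ hP2 (by positivity)]
    have h6 : 0.85 * m * T i ≤ m * T i - D i := by linarith
    calc 0.85 * T i * (m * 2 ^ m) = 0.85 * m * T i * 2 ^ m := by ring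
      _ ≤ _ := mul_le_mul_of_nonneg_right h6 hP2.le
  have hpos : 0 < 0.85 * T i / 2 ^ m := by positivity
  refine ⟨i, hpos.trans_le hmass, ?_⟩
  have h1 : log (0.85 * T i / 2 ^ m) ≤
      log (∑ v, density ss tt ww v * (if P v = i then 1 else 0)) := log_le_log hpos hmass
  have h2 : log (0.85 * T i / 2 ^ m) = log 0.85 - log (2 ^ m / T i) := by
    have : 0.85 * T i / 2 ^ m = 0.85 / (2 ^ m / T i) := by field_simp
    rw [this, log_div (by norm_num) (by positivity)]
  have h3 : (-0.18 : ℝ) ≤ log 0.85 := by
    have h4 := Real.one_sub_inv_le_log_of_pos (show (0 : ℝ) < 0.85 by norm_num)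
    have h5 : (-0.18 : ℝ) ≤ 1 - (0.85 : ℝ)⁻¹ := by norm_num
    linarith
  rw [h2] at h1
  linarith

end P325qs
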