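import Mathlib
import Pool.Agent.Lib.P325qs.Capt
import Pool.Agent.Lib.P325qs.Part

/-!
P325qs.Final (MP_325f1f_lc, helper45): cheap partitions of the subdivided hypercube into sets have a
part with many small eigenvalues.
-/

namespace P325qs

open Finset Real P325qz
open Pool.Agent.Lib.P325q (density mass energy IsSlow)

theorem sub_lower {m q : ℕ} {I : Type} [Fintype I] [DecidableEq I] (P : SV m q → I)
    (hcut : cutWeight ss tt ww P ≤ 1 / (140 * (q + 1))) {x : ℝ} (hx : 1024 ≤ x * m)
    (hx1 : x ≤ 1) :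
    ∃ (i : I) (F : Submodule ℝ (SV m q → ℝ)),
      IsSlow ss tt ww (fun v => if P v = i then 1 else 0) (x / (4 * (2 * q + 1) ^ 2)) F ∧
      1 / 20 * ((2 : ℝ) ^ m) ^ (x * log (2 / x) / 3000) ≤ Module.finrank ℝ F := by
  have hm : 0 < m := by
    rcases Nat.eq_zero_or_pos m with h | h
    · subst h; norm_num at hx
    · exact h
  have hm' : (0 : ℝ) < m := by exact_mod_cast hm
  have hx0 : 0 < x := by
    by_contra hcon
    have : x * m ≤ 0 := mul_nonpos_of_nonpos_of_nonneg (not_lt.1 hcon) hm'.le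
    linarith
  have hm1024 : 1024 ≤ m := by
    have h1 : (1024 : ℝ) ≤ m := by
      refine hx.trans ?_
      exact mul_le_of_le_one_left hm'.le hx1
    exact_mod_cast h1
  have hP : (0 : ℝ) < 2 ^ m := by positivity
  obtain ⟨i, hM0, hkl⟩ := good_part hm1024 P hcut
  -- the parameters
  set j : ℕ := ⌊x * m / 1024⌋₊ with hj
  have hy1 : 1 ≤ x * m / 1024 := by
    rw [le_div_iff₀ (by norm_num)]
    linarith
  have hj1 : 1 ≤ j := Nat.le_floor (by simpa using hy1)
  have hj0 : (0 : ℝ) < j := by exact_mod_cast hj1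
  have hjle : (j : ℝ) ≤ x * m / 1024 := Nat.floor_le (by positivity)
  have hjge : x * m / 2048 ≤ j := by
    have h1 := Nat.lt_floor_add_one (x * m / 1024)
    have h2 : (1 : ℝ) ≤ j := by exact_mod_cast hj1
    rw [← hj] at h1
    linarith
  set b : ℕ := m / j with hb
  have hjb : j * b ≤ m := Nat.mul_div_le m j
  have hjb2 : m < j * (b + 1) := by
    have := Nat.lt_mul_div_succ m (by omega : 0 < j)
    simpa [hb] using this
  have hb512 : 512 / x ≤ b := by
    have h1 : (m : ℝ) < j * (b + 1) := by exact_mod_cast hjb2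
    have h2 : (m : ℝ) < x * m / 1024 * (b + 1) :=
      h1.trans_le (mul_le_mul_of_nonneg_right hjle (by positivity))
    have h3 : 1024 < x * (b + 1) := by
      have h4 : (m : ℝ) * 1024 < m * (x * (b + 1)) := by linarith
      exact lt_of_mul_lt_mul_left h4 hm'.le
    rw [div_le_iff₀ hx0]
    nlinarith
  have hb5 : 512 ≤ b := by
    have h1 : (512 : ℝ) ≤ 512 / x := by
      rw [le_div_iff₀ hx0]
      linarith
    have h2 : (512 : ℝ) ≤ b := by linarith
    exact_mod_cast h2
  have hm2 : m ≤ 2 * (j * b) := by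
    have : j * (b + 1) ≤ 2 * (j * b) := by nlinarith
    omega
  set e : Fin j × Fin b → Fin m := fun p => Fin.castLE hjb (finProdFinEquiv p) with he
  have heinj : Function.Injective e := fun p q h =>
    finProdFinEquiv.injective (Fin.castLE_injective hjb h)
  obtain ⟨R, F, hF, hslow, hfinal⟩ := sub_capture hm hb5 hj1 hm2 e heinj
    (fun v => if P v = i then 1 else 0) (fun v => by split_ifs <;> norm_num)
    (fun v => by split_ifs <;> norm_num) rfl hM0 hkl hx0 hb512
  refine ⟨i, F, hslow, ?_⟩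
  rw [hF]
  -- the numbers
  have hq : (2 / x : ℝ) ≤ b / 192 := by
    rw [le_div_iff₀ (by norm_num)]
    calc 2 / x * 192 = 384 / x := by ring
      _ ≤ 512 / x := by gcongr; norm_num
      _ ≤ b := hb512
  have h2x : 1 < 2 / x := by
    rw [lt_div_iff₀ hx0]
    linarith
  have hlog : 0 < log (2 / x) := log_pos h2x
  have h10 : (2 / x) ^ j ≤ (20 * (R : ℝ)) ^ 2 :=
    (pow_le_pow_left₀ (by positivity) hq j).trans hfinal
  have hR0 : 0 < 20 * (R : ℝ) := by
    have h11 : 0 < (2 / x) ^ j := by positivity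
    have h12 : 0 < (20 * (R : ℝ)) ^ 2 := h11.trans_le h10
    have h13 : (0 : ℝ) ≤ 20 * R := by positivity
    rcases h13.eq_or_lt with h14 | h14
    · rw [← h14] at h12; norm_num at h12
    · exact h14
  have h11 : (j : ℝ) * log (2 / x) ≤ 2 * log (20 * R) := by
    have := log_le_log (by positivity) h10
    rw [log_pow, log_pow] at this
    exact_mod_cast this
  have h12 : x * m / 4096 * log (2 / x) ≤ log (20 * R) := by
    have : x * m / 2048 * log (2 / x) ≤ j * log (2 / x) :=
      mul_le_mul_of_nonneg_right hjge hlog.le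
    linarith
  have h13 : ((2 : ℝ) ^ m) ^ (x * log (2 / x) / 3000) ≤ 20 * R := by
    rw [Real.rpow_def_of_pos hP, ← Real.le_log_iff_exp_le hR0, log_pow]
    refine le_trans ?_ h12
    have h14 := Real.log_two_lt_d9
    have h15 : 0 < x * m * log (2 / x) := by positivity
    have h16 : log 2 / 3000 ≤ 1 / 4096 := by
      rw [div_le_div_iff₀ (by norm_num) (by norm_num)]
      linarith
    calc (m : ℝ) * log 2 * (x * log (2 / x) / 3000) = log 2 / 3000 * (x * m * log (2 / x)) := by
          ring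
      _ ≤ 1 / 4096 * (x * m * log (2 / x)) := mul_le_mul_of_nonneg_right h16 h15.le
      _ = _ := by ring
  linarith

theorem card_SV (m q : ℕ) : Fintype.card (SV m q) = 2 ^ m * (m * q + 1) := by
  simp

theorem sq_le_two_pow {m : ℕ} (hm : 4 ≤ m) : m * m ≤ 2 ^ m := by
  induction m, hm using Nat.le_induction with
  | base => norm_num
  | succ m hm ih =>
    rw [pow_succ]
    nlinarith

theorem slow_mono {V ι : Type} [Fintype V] [DecidableEq V] [Fintype ι] {s t : ι → V}
    {w : ι → ℝ} {σ : V → ℝ} {η η' : ℝ} (h : η ≤ η') {F : Submodule ℝ (V → ℝ)}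
    (hF : IsSlow s t w σ η F) : IsSlow s t w σ η' F := by
  intro f hf hf0
  obtain ⟨h1, h2⟩ := hF f hf hf0
  exact ⟨h1, h2.trans (mul_le_mul_of_nonneg_right h h1.le)⟩

/-- **Cheap partitions into sets have a part with many small eigenvalues.** -/
theorem set_lower {κ x : ℝ} (hκ0 : 0 < κ) (hκ1 : κ ≤ 1 / 280) (hx0 : 0 < x) (hx1 : x ≤ 1) :
    ∃ q m0 : ℕ, ∀ m : ℕ, m0 ≤ m → ∀ (I : Type) [Fintype I] [DecidableEq I] (P : SV m q → I),
      cutWeight ss tt ww P ≤ κ →
      ∃ (i : I) (F : Submodule ℝ (SV m q → ℝ)),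
        IsSlow ss tt ww (fun v => if P v = i then 1 else 0) (x * κ ^ 2) F ∧
        1 / 20 * (Fintype.card (SV m q) : ℝ) ^ (x * log (2 / x) / 30000000) ≤
          Module.finrank ℝ F := by
  set u : ℝ := 1 / (140 * κ) with hu
  have hu2 : 2 ≤ u := by
    rw [hu, le_div_iff₀ (by positivity)]
    linarith
  set k : ℕ := ⌊u⌋₊ with hk
  have hk2 : 2 ≤ k := Nat.le_floor (by exact_mod_cast hu2)
  have hku : (k : ℝ) ≤ u := Nat.floor_le (by linarith)
  have hku2 : u < k + 1 := Nat.lt_floor_add_one u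
  set q : ℕ := k - 1 with hq
  have hqk : (q : ℝ) + 1 = k := by
    have : q + 1 = k := by omega
    exact_mod_cast this
  set y : ℝ := x / 4900 with hy
  have hy0 : 0 < y := by positivity
  have hy1 : y ≤ 1 := by rw [hy]; linarith
  refine ⟨q, max (max (q + 1) 4) ⌈1024 / y⌉₊, fun m hm I _ _ P hcut => ?_⟩
  have hm1 : q + 1 ≤ m := (le_max_left _ _).trans ((le_max_left _ _).trans hm)
  have hm2 : 4 ≤ m := (le_max_right _ _).trans ((le_max_left _ _).trans hm)
  have hm3 : 1024 / y ≤ m := (Nat.le_ceil _).trans (by exact_mod_cast (le_max_right _ _).trans hm)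
  have hym : 1024 ≤ y * m := by
    rw [div_le_iff₀ hy0] at hm3
    linarith
  have hcut' : cutWeight ss tt ww P ≤ 1 / (140 * ((q : ℝ) + 1)) := by
    refine hcut.trans ?_
    rw [hqk, le_div_iff₀ (by positivity)]
    have h1 : κ * (140 * u) = 1 := by rw [hu]; field_simp
    calc κ * (140 * (k : ℝ)) ≤ κ * (140 * u) := by gcongr
      _ = 1 := h1
  obtain ⟨i, F, hslow, hdim⟩ := sub_lower P hcut' hym hy1
  refine ⟨i, F, slow_mono ?_ hslow, le_trans ?_ hdim⟩
  · -- the size of the eigenvalues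
    have h1 : u ≤ 2 * (q : ℝ) + 1 := by
      have h2 : (2 : ℝ) ≤ k := by exact_mod_cast hk2
      linarith
    have hu0 : 0 < u := by linarith
    calc y / (4 * (2 * (q : ℝ) + 1) ^ 2) ≤ y / (4 * u ^ 2) := by gcongr
      _ = x * κ ^ 2 := by
          rw [hy, hu]
          field_simp
          norm_num
  · -- the number of vertices
    have hn : (Fintype.card (SV m q) : ℝ) ≤ ((2 : ℝ) ^ m) ^ (2 : ℝ) := by
      have h1 : m * q + 1 ≤ 2 ^ m := by
        have h2 := sq_le_two_pow hm2
        nlinarith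
      have h2 : Fintype.card (SV m q) ≤ 2 ^ m * 2 ^ m := by
        rw [card_SV]
        exact Nat.mul_le_mul_left _ h1
      have h3 : ((2 : ℝ) ^ m) ^ (2 : ℝ) = 2 ^ m * 2 ^ m := by
        rw [show (2 : ℝ) = ((2 : ℕ) : ℝ) by norm_num, Real.rpow_natCast]
        ring
      rw [h3]
      exact_mod_cast h2
    have hn1 : (1 : ℝ) ≤ Fintype.card (SV m q) := by
      have : 0 < Fintype.card (SV m q) := Fintype.card_pos
      exact_mod_cast this
    have h2x : 1 < 2 / x := by
      rw [lt_div_iff₀ hx0]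
      linarith
    have hlx : 0 < log (2 / x) := log_pos h2x
    have hly : log (2 / x) ≤ log (2 / y) := by
      apply Real.log_le_log (by positivity)
      apply div_le_div_of_nonneg_left (by norm_num) hy0
      rw [hy]
      linarith
    have hexp : x * log (2 / x) / 30000000 ≤ y * log (2 / y) / 3000 / 2 := by
      have h3 : x * log (2 / x) ≤ x * log (2 / y) := mul_le_mul_of_nonneg_left hly hx0.le
      have h4 : 0 < x * log (2 / y) := mul_pos hx0 (hlx.trans_le hly)
      have h5 : y * log (2 / y) / 3000 / 2 = x * log (2 / y) / 29400000 := by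
        rw [hy]; ring
      rw [h5]
      have h6 : x * log (2 / x) / 30000000 ≤ x * log (2 / y) / 30000000 := by gcongr
      refine h6.trans ?_
      apply div_le_div_of_nonneg_left h4.le (by norm_num) (by norm_num)
    have h7 : (Fintype.card (SV m q) : ℝ) ^ (x * log (2 / x) / 30000000) ≤
        ((2 : ℝ) ^ m) ^ (y * log (2 / y) / 3000) := by
      calc (Fintype.card (SV m q) : ℝ) ^ (x * log (2 / x) / 30000000) ≤
            (Fintype.card (SV m q) : ℝ) ^ (y * log (2 / y) / 3000 / 2) :=
            Real.rpow_le_rpow_of_exponent_le hn1 hexp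
        _ ≤ (((2 : ℝ) ^ m) ^ (2 : ℝ)) ^ (y * log (2 / y) / 3000 / 2) := by
            apply Real.rpow_le_rpow (by positivity) hn
            have : 0 < log (2 / y) := hlx.trans_le hly
            positivity
        _ = _ := by
            rw [← Real.rpow_mul (by positivity)]
            congr 1
            ring
    linarith

/-- The version without the explicit graph: all edges have the same weight. -/
theorem set_lower' {κ x : ℝ} (hκ0 : 0 < κ) (hκ1 : κ ≤ 1 / 280) (hx0 : 0 < x) (hx1 : x ≤ 1)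
    (n0 : ℕ) :
    ∃ (V ι : Type) (_ : Fintype V) (_ : DecidableEq V) (_ : Fintype ι) (s t : ι → V)
      (w : ι → ℝ), n0 ≤ Fintype.card V ∧ (∀ e, 0 ≤ w e) ∧ (∀ e e', w e = w e') ∧ ∑ e, w e = 1 ∧
      ∀ (N : ℕ) (P : V → Fin N), (∑ e, if P (s e) = P (t e) then 0 else w e) ≤ κ →
        ∃ (i : Fin N) (F : Submodule ℝ (V → ℝ)),
          IsSlow s t w (fun v => if P v = i then 1 else 0) (x * κ ^ 2) F ∧
          1 / 20 * (Fintype.card V : ℝ) ^ (x * log (2 / x) / 30000000) ≤ Module.finrank ℝ F := by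
  obtain ⟨q, m0, h⟩ := set_lower hκ0 hκ1 hx0 hx1
  set m : ℕ := max (max m0 n0) 1 with hm
  have hm1 : m0 ≤ m := (le_max_left _ _).trans (le_max_left _ _)
  have hm2 : n0 ≤ m := (le_max_right _ _).trans (le_max_left _ _)
  have hm3 : 0 < m := lt_of_lt_of_le (by norm_num) (le_max_right _ _)
  refine ⟨SV m q, SE m q, inferInstance, inferInstance, inferInstance, ss, tt, ww, ?_, ww_nonneg,
    fun _ _ => rfl, ww_sum hm3, fun N P hcut => h m hm1 (Fin N) P hcut⟩
  rw [card_SV]
  have h1 : m ≤ 2 ^ m := Nat.lt_two_pow_self.le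
  calc n0 ≤ m := hm2
    _ ≤ 2 ^ m := h1
    _ ≤ _ := Nat.le_mul_of_pos_right _ (by positivity)

end P325qs
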